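import Pool.Agent.H25.SigmaD
import Pool.Agent.H25.SeqD

set_option autoImplicit false

namespace Pool.Agent.Results.MP_718903_gt.Sequential

open Pool.Agent.H25.DSepDefs

/-- The three versions of the question, with and without the Hausdorff axiom. -/
theorem result :
    (∃ (X : Type) (_ : TopologicalSpace X), T35Space X ∧ SequentialSpace X ∧ SmallDSep X ∧
      ¬ BigDSep X) ∧
    (∀ (X : Type) [TopologicalSpace X] [T2Space X] [SequentialSpace X]
      [TopologicalSpace.SeparableSpace X], BigDSep X) ∧
    (∃ (X : Type) (_ : TopologicalSpace X), Countable X ∧ T1Space X ∧ SequentialSpace X ∧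
      ¬ BigDSep X) := by
  refine ⟨⟨Pool.Agent.H25.SigmaDefs.Sig ℝ, inferInstance, inferInstance, ?_,
    Pool.Agent.H25.SigmaD.dsep, Pool.Agent.H25.SigmaD.not_D (by rw [Cardinal.mk_real]; simp)⟩,
    Pool.Agent.H25.SeqD.sep_D, Pool.Agent.H25.SeqD.countable_ex⟩
  have := Pool.Agent.H25.SigmaD.frechet (I := ℝ)
  infer_instance

end Pool.Agent.Results.MP_718903_gt.Sequential
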